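import Pool.Agent.H29.HMF.Stmts

/-! Row SB2 of the board hmf: the logarithms of the eigenvalues form a subgroup. -/

set_option autoImplicit false

open Matrix MeasureTheory

namespace Pool.HMF

theorem sb2_dg_mul (v w : ℝ) : dg v * dg w = dg (v + w) := by
  unfold dg
  rw [diagonal_mul_diagonal]
  congr 1
  funext i
  fin_cases i
  · simp [Real.exp_add]
  · simp only [Fin.mk_one, cons_val_one]
    show Real.exp (-v) * Real.exp (-w) = Real.exp (-(v + w))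
    rw [← Real.exp_add]
    congr 1
    ring

theorem sb2_dg_zero : dg 0 = 1 := by
  unfold dg
  rw [← diagonal_one]
  congr 1
  funext i
  fin_cases i <;> simp

theorem sb2_zero (hB : BASS) (g : Fin 2 → S2) : (0 : Fin 2 → ℝ) ∈ Lam g := by
  obtain ⟨-, -, -, -, -, -, -, -, -, -, -, h1, -⟩ := hB
  refine ⟨1, fun _ => 1, fun i => ⟨by norm_num, ?_⟩⟩
  rw [Matrix.SpecialLinearGroup.coe_one, h1, Pi.zero_apply, sb2_dg_zero]
  simp

theorem sb2_add (hB : BASS) (g : Fin 2 → S2) (a b : Fin 2 → ℝ) (ha : a ∈ Lam g)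
    (hb : b ∈ Lam g) : a + b ∈ Lam g := by
  obtain ⟨-, -, -, -, -, -, -, -, hm, -, -, -, -⟩ := hB
  obtain ⟨η, ε, h⟩ := ha
  obtain ⟨η', ε', h'⟩ := hb
  refine ⟨η * η', fun i => ε i * ε' i, fun i => ⟨?_, ?_⟩⟩
  · rw [mul_pow, (h i).1, (h' i).1, one_mul]
  · rw [Matrix.SpecialLinearGroup.coe_mul, hm, Matrix.mul_assoc, (h' i).2, ← Matrix.mul_assoc,
      (h i).2, Matrix.mul_assoc, Pi.add_apply, ← sb2_dg_mul, smul_mul_smul_comm]

theorem sb2_neg (hB : BASS) (g : Fin 2 → S2) (a : Fin 2 → ℝ) (ha : a ∈ Lam g) :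
    -a ∈ Lam g := by
  obtain ⟨-, -, -, -, -, -, -, -, hm, -, -, h1, -⟩ := hB
  obtain ⟨η, ε, h⟩ := ha
  refine ⟨η⁻¹, ε, fun i => ⟨(h i).1, ?_⟩⟩
  have e1 : cm i (η⁻¹).1 * cm i η.1 = 1 := by
    rw [← hm, ← Matrix.SpecialLinearGroup.coe_mul, inv_mul_cancel,
      Matrix.SpecialLinearGroup.coe_one, h1]
  have e2 : (ε i • dg (a i)) * (ε i • dg (-a i)) = 1 := by
    rw [smul_mul_smul_comm, sb2_dg_mul, add_neg_cancel, sb2_dg_zero, ← pow_two, (h i).1, one_smul]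
  rw [Pi.neg_apply]
  calc cm i (η⁻¹).1 * (g i).1
      = cm i (η⁻¹).1 * ((g i).1 * ((ε i • dg (a i)) * (ε i • dg (-a i)))) := by
        rw [e2, Matrix.mul_one]
    _ = cm i (η⁻¹).1 * (((g i).1 * (ε i • dg (a i))) * (ε i • dg (-a i))) := by
        rw [Matrix.mul_assoc]
    _ = cm i (η⁻¹).1 * ((cm i η.1 * (g i).1) * (ε i • dg (-a i))) := by rw [(h i).2]
    _ = (cm i (η⁻¹).1 * cm i η.1) * ((g i).1 * (ε i • dg (-a i))) := by
        rw [Matrix.mul_assoc, Matrix.mul_assoc]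
    _ = (g i).1 * (ε i • dg (-a i)) := by rw [e1, Matrix.one_mul]

theorem sb2_thm (hB : BASS) : SB2S := by
  intro g
  have h0 := sb2_zero hB g
  have hadd := sb2_add hB g
  have hneg := sb2_neg hB g
  let A : AddSubgroup (Fin 2 → ℝ) :=
    { carrier := Lam g
      zero_mem' := h0
      add_mem' := fun {a b} ha hb => hadd a b ha hb
      neg_mem' := fun {a} ha => hneg a ha }
  refine ⟨h0, ?_, fun a ha b hb => hadd a b ha hb, ?_⟩
  · intro a ha b hb
    exact A.sub_mem ha hb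
  · intro a ha n
    exact A.zsmul_mem ha n

end Pool.HMF
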